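import Mathlib

namespace Pool.Agent.Results.MP_469fc6_nt.Counter

open ArithmeticFunction

/-- modular exponentiation with fuel -/
def pm (m : ℕ) : ℕ → ℕ → ℕ → ℕ
  | 0, _, _ => 1
  | f + 1, b, e => (if e % 2 = 0 then 1 else b) * pm m f (b * b % m) (e / 2) % m

theorem pm_eq (m : ℕ) : ∀ f b e : ℕ, e < 2 ^ f → (pm m f b e : ZMod m) = (b : ZMod m) ^ e := by
  intro f
  induction f with
  | zero => intro b e h; have : e = 0 := by omega
            subst this; simp [pm]
  | succ f ih =>
    intro b e h
    rw [pm, ZMod.natCast_mod, Nat.cast_mul, ih _ _ (by rw [pow_succ] at h; omega),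
      ZMod.natCast_mod, Nat.cast_mul, ← pow_two, ← pow_mul]
    split_ifs with h2
    · rw [Nat.cast_one, one_mul]; congr 1; omega
    · rw [← pow_succ']; congr 1; omega

theorem lucas (p a : ℕ) (L : List ℕ)
    (h : p < 2 ^ 100 ∧ L.prod = p - 1 ∧ pm p 100 a (p - 1) = 1 ∧
      ∀ q ∈ L, pm p 100 a ((p - 1) / q) % p ≠ 1 % p)
    (hL : ∀ q ∈ L, q.Prime) : p.Prime := by
  obtain ⟨h0, h1, h2, h3⟩ := h
  apply lucas_primality p (a : ZMod p)
  · rw [← pm_eq p 100 a _ (by omega), h2, Nat.cast_one]
  · intro q hq hd he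
    rw [← h1] at hd
    obtain ⟨y, hy, hqy⟩ := (Prime.dvd_prod_iff hq.prime).mp hd
    have e := (Nat.prime_dvd_prime_iff_eq hq (hL y hy)).mp hqy
    subst e
    apply h3 q hy
    rw [← pm_eq p 100 a _ (lt_of_le_of_lt (Nat.div_le_self _ _) (by omega))] at he
    exact (ZMod.natCast_eq_natCast_iff' _ _ _).mp (he.trans Nat.cast_one.symm)

theorem p2 : Nat.Prime 2 := by norm_num

theorem p3 : Nat.Prime 3 := by norm_num

theorem p3529 : Nat.Prime 3529 := by norm_num

theorem p107 : Nat.Prime 107 := by norm_num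

theorem p19 : Nat.Prime 19 := by norm_num

theorem p129140227 : Nat.Prime 129140227 :=
  lucas 129140227 5 [2, 3, 3, 19, 107, 3529] (by decide +kernel) (by
    simp only [List.mem_cons, List.not_mem_nil, or_false, forall_eq_or_imp, forall_eq]
    exact ⟨p2, p3, p3, p19, p107, p3529⟩)

theorem p1931 : Nat.Prime 1931 := by norm_num

theorem p5 : Nat.Prime 5 := by norm_num

theorem p12211 : Nat.Prime 12211 := by norm_num

theorem p61 : Nat.Prime 61 := by norm_num

theorem p22346131 : Nat.Prime 22346131 :=
  lucas 22346131 2 [2, 3, 5, 61, 12211] (by decide +kernel) (by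
    simp only [List.mem_cons, List.not_mem_nil, or_false, forall_eq_or_imp, forall_eq]
    exact ⟨p2, p3, p5, p61, p12211⟩)

theorem p991 : Nat.Prime 991 := by norm_num

theorem p256572153302107 : Nat.Prime 256572153302107 :=
  lucas 256572153302107 2 [2, 3, 991, 1931, 22346131] (by decide +kernel) (by
    simp only [List.mem_cons, List.not_mem_nil, or_false, forall_eq_or_imp, forall_eq]
    exact ⟨p2, p3, p991, p1931, p22346131⟩)

theorem p7489 : Nat.Prime 7489 := by norm_num

theorem p11047 : Nat.Prime 11047 := by norm_num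

theorem p23 : Nat.Prime 23 := by norm_num

theorem p137002507849 : Nat.Prime 137002507849 :=
  lucas 137002507849 29 [2, 2, 2, 3, 3, 23, 7489, 11047] (by decide +kernel) (by
    simp only [List.mem_cons, List.not_mem_nil, or_false, forall_eq_or_imp, forall_eq]
    exact ⟨p2, p2, p2, p3, p3, p23, p7489, p11047⟩)

theorem p199 : Nat.Prime 199 := by norm_num

theorem p47 : Nat.Prime 47 := by norm_num

theorem p14029501 : Nat.Prime 14029501 :=
  lucas 14029501 7 [2, 2, 3, 5, 5, 5, 47, 199] (by decide +kernel) (by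
    simp only [List.mem_cons, List.not_mem_nil, or_false, forall_eq_or_imp, forall_eq]
    exact ⟨p2, p2, p3, p5, p5, p5, p47, p199⟩)

theorem p53 : Nat.Prime 53 := by norm_num

theorem p103 : Nat.Prime 103 := by norm_num

theorem p153174091919 : Nat.Prime 153174091919 :=
  lucas 153174091919 7 [2, 53, 103, 14029501] (by decide +kernel) (by
    simp only [List.mem_cons, List.not_mem_nil, or_false, forall_eq_or_imp, forall_eq]
    exact ⟨p2, p53, p103, p14029501⟩)

theorem p11 : Nat.Prime 11 := by norm_num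

theorem p271 : Nat.Prime 271 := by norm_num

theorem p894301 : Nat.Prime 894301 :=
  lucas 894301 2 [2, 2, 3, 5, 5, 11, 271] (by decide +kernel) (by
    simp only [List.mem_cons, List.not_mem_nil, or_false, forall_eq_or_imp, forall_eq]
    exact ⟨p2, p2, p3, p5, p5, p11, p271⟩)

theorem p225205396855537107298933866373 : Nat.Prime 225205396855537107298933866373 :=
  lucas 225205396855537107298933866373 2 [2, 2, 3, 894301, 137002507849, 153174091919] (by decide +kernel) (by
    simp only [List.mem_cons, List.not_mem_nil, or_false, forall_eq_or_imp, forall_eq]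
    exact ⟨p2, p2, p3, p894301, p137002507849, p153174091919⟩)

theorem cop (a b : ℕ) (h : Nat.Coprime a b) : sigma 1 (a * b) = sigma 1 a * sigma 1 b :=
  isMultiplicative_sigma.map_mul_of_coprime h

theorem sp (p : ℕ) (hp : p.Prime) : sigma 1 p = p + 1 := by
  rw [sigma_one_apply, hp.sum_divisors]

theorem s3 : sigma 1 (3 ^ 16) = 64570081 := by
  rw [sigma_one_apply_prime_pow Nat.prime_three]; decide +kernel

theorem sn : sigma 1 (3 ^ 16 * 129140227 * 256572153302107 * 225205396855537107298933866373) =
    481815972342169646750532492006321534970028262796740230327456 := by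
  rw [cop _ _ (by decide +kernel), cop _ _ (by decide +kernel), cop _ _ (by decide +kernel), s3,
    sp _ p129140227, sp _ p256572153302107, sp _ p225205396855537107298933866373]

theorem result : ¬ ∀ n : ℕ, 0 < n → (n : ℤ) = 1 + 2 * ((sigma 1 n : ℤ) - n - 1) →
    ∃ k : ℕ, 1 ≤ k ∧ (3 ^ k - 2).Prime ∧ n = 3 ^ (k - 1) * (3 ^ k - 2) := by
  intro H
  obtain ⟨k, -, hs, hn⟩ := H (3 ^ 16 * 129140227 * 256572153302107 * 225205396855537107298933866373)
    (by norm_num) (by rw [sn]; norm_num)
  have key : ∀ x : ℕ, x.Prime → x ≠ 3 → x ∣ 3 ^ (k - 1) * (3 ^ k - 2) → x = 3 ^ k - 2 := by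
    intro x hx h3 hd
    rcases (Nat.Prime.dvd_mul hx).mp hd with h | h
    · exact absurd ((Nat.prime_dvd_prime_iff_eq hx Nat.prime_three).mp (hx.dvd_of_dvd_pow h)) h3
    · exact (Nat.prime_dvd_prime_iff_eq hx hs).mp h
  have h1 := key _ p129140227 (by norm_num) (by rw [← hn]; decide +kernel)
  have h2 := key _ p256572153302107 (by norm_num) (by rw [← hn]; decide +kernel)
  omega

end Pool.Agent.Results.MP_469fc6_nt.Counter
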